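import Mathlib

/-!
# A Lindelöf P-space where Bob wins PONAG but does not win the Menger game

We answer Q1 of `MP_4977a6_gt` in the negative, in ZFC.  Let `W` be the ordinal `ω₁` and for each
`α < ω₁` let `lad α ⊆ α` be cofinal in `α` with finite intersections with all `β < α`.  The space
consists of all finite subsets of `ω₁` and of all the sets `lad α`; a basic neighborhood of `x` is
the set of all `y` with `y ∩ β = x ∩ β`, where `β < ω₁`.

* The space is a zero-dimensional Hausdorff Lindelöf `P`-space.  Hence it is Menger, all its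
  countable subsets are closed and discrete, and Bob wins the game `PONAG` in his first move.
* Bob has no winning strategy in the Menger game: given a strategy, close off to find a limit
  ordinal `α` such that against Alice's moves `{[x]_β : x}` (the partition of the space into the
  sets of all `y` with `y ∩ β = x ∩ β`), `β < α`, Bob can be made to miss the point `lad α`
  for ever.
-/

set_option autoImplicit false

open Set Topology

namespace Pool.Agent.Results.MP_4977a6_gt.LindelofPCounterexample

/-- `U` is an open cover of `X`. -/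
def IsOpenCover {X : Type} [TopologicalSpace X] (U : Set (Set X)) : Prop :=
  (∀ u ∈ U, IsOpen u) ∧ ⋃₀ U = univ

/-- `X` is a Menger space: for every sequence `U 0, U 1, ...` of open covers there are finite
`F n ⊆ U n` such that `⋃ n, F n` covers `X`. -/
def IsMenger (X : Type) [TopologicalSpace X] : Prop :=
  ∀ U : ℕ → Set (Set X), (∀ n, IsOpenCover (U n)) →
    ∃ F : ℕ → Set (Set X), (∀ n, (F n).Finite ∧ F n ⊆ U n) ∧ ⋃ n, ⋃₀ F n = univ

/-- A strategy for the second player of a game in which Alice's moves have type `A` and Bob's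
moves have type `B`: Bob's `n`-th move is computed from the finite sequence
`[a 0, ..., a n]` of Alice's moves so far and the finite sequence `[b 0, ..., b (n-1)]` of his own
earlier moves.  `Follows σ a b` says that in the play `a 0, b 0, a 1, b 1, ...` Bob follows the
strategy `σ`. -/
def Follows {A B : Type} (σ : List A → List B → B) (a : ℕ → A) (b : ℕ → B) : Prop :=
  ∀ n, b n = σ ((List.range (n + 1)).map a) ((List.range n).map b)

/-- Bob has a winning strategy in the Menger game on `X`: as long as Alice plays open covers `U k`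
the strategy answers with finite `F n ⊆ U n`, and if all `U n` are open covers then
`⋃ n, F n` covers `X`. -/
def BobWinsMenger (X : Type) [TopologicalSpace X] : Prop :=
  ∃ σ : List (Set (Set X)) → List (Set (Set X)) → Set (Set X),
    ∀ U F : ℕ → Set (Set X), Follows σ U F →
      (∀ n, (∀ k ≤ n, IsOpenCover (U k)) → (F n).Finite ∧ F n ⊆ U n) ∧
      ((∀ n, IsOpenCover (U n)) → ⋃ n, ⋃₀ F n = univ)

/-- A partial open neighborhood assignment `{V x : x ∈ Y}` in `X`. -/
structure PONA (X : Type) [TopologicalSpace X] where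
  /-- the set of indices -/
  Y : Set X
  /-- the neighborhoods -/
  V : Y → Set X
  isOpen_V : ∀ x, IsOpen (V x)
  mem_V : ∀ x : Y, (x : X) ∈ V x

/-- `V_D`, the union of all `V x` with `x ∈ D`. -/
def PONA.star {X : Type} [TopologicalSpace X] (N : PONA X) (D : Set X) : Set X :=
  ⋃ (x : N.Y) (_ : (x : X) ∈ D), N.V x

/-- The part `X \ ⋃ k < n, V_{D k}` of `X` that is not covered before round `n`. -/
def uncovered {X : Type} [TopologicalSpace X] (N : ℕ → PONA X) (D : ℕ → Set X) (n : ℕ) : Set X :=
  (⋃ (k : ℕ) (_ : k < n), (N k).star (D k))ᶜ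

/-- Alice's move in round `n` is legal: the index set `Y n` lies in the part that is not yet
covered, and the members of the assignment cover this part (for `n = 0` it is all of `X`). -/
def AliceLegal {X : Type} [TopologicalSpace X] (N : ℕ → PONA X) (D : ℕ → Set X) (n : ℕ) : Prop :=
  (N n).Y ⊆ uncovered N D n ∧ uncovered N D n ⊆ ⋃ x, (N n).V x

/-- Bob has a winning strategy in the game `PONAG(X)`: as long as Alice's moves are legal the
strategy answers with sets `D n ⊆ Y n` that are closed and discrete in `X`, and if all moves of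
Alice are legal then the sets `V x` with `x ∈ D n`, `n = 0, 1, ...`, cover `X`. -/
def BobWinsPONAG (X : Type) [TopologicalSpace X] : Prop :=
  ∃ σ : List (PONA X) → List (Set X) → Set X,
    ∀ (N : ℕ → PONA X) (D : ℕ → Set X), Follows σ N D →
      (∀ n, (∀ k ≤ n, AliceLegal N D k) →
        D n ⊆ (N n).Y ∧ IsClosed (D n) ∧ DiscreteTopology (D n)) ∧
      ((∀ n, AliceLegal N D n) → ⋃ n, (N n).star (D n) = univ)

/-! ### General lemmas about lists and strategies -/

/-- the list of Bob's moves against the (reversed) list of Alice's moves -/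
def run {A B : Type} (σ : List A → List B → B) : List A → List B
  | [] => []
  | a :: l => run σ l ++ [σ (a :: l).reverse (run σ l)]

theorem run_map {A B : Type} (σ : List A → List B → B) (a : ℕ → A) (b : ℕ → B)
    (h : ∀ n, b n = σ ((List.range (n + 1)).map a) (run σ ((List.range n).map a).reverse)) :
    ∀ n, (List.range n).map b = run σ ((List.range n).map a).reverse := by
  intro n
  induction n with
  | zero => simp [run]
  | succ n ih =>
    have e1 : ((List.range (n + 1)).map a).reverse = a n :: ((List.range n).map a).reverse := by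
      simp [List.range_succ]
    rw [e1, run, ← ih]
    have e2 : (a n :: ((List.range n).map a).reverse).reverse = (List.range (n + 1)).map a := by
      simp [List.range_succ]
    rw [e2]
    rw [List.range_succ, List.map_append, List.map_singleton, h n, ← ih]
    simp [List.range_succ]

/-- the response at the move `a` after Alice's earlier moves `l` -/
def resp {A B : Type} (σ : List A → List B → B) (l : List A) (a : A) : B :=
  σ (l ++ [a]) (run σ l.reverse)

theorem follows_resp {A B : Type} (σ : List A → List B → B) (a : ℕ → A) :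
    Follows σ a (fun n => resp σ ((List.range n).map a) (a n)) := by
  have key := run_map σ a (fun n => resp σ ((List.range n).map a) (a n)) (by
    intro n
    simp [resp, List.range_succ])
  intro n
  rw [key n]
  simp [resp, List.range_succ]

/-! ### The well-ordered set `W` of type `ω₁` -/


section W

variable {W : Type} [LinearOrder W]

theorem exists_bound (hc : ∀ a : W, (Iio a).Countable) (hu : ¬ (univ : Set W).Countable)
    (S : Set W) (hS : S.Countable) : ∃ b, ∀ s ∈ S, s < b := by
  by_contra hcon
  push Not at hcon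
  apply hu
  have : (univ : Set W) ⊆ ⋃ s ∈ S, Iic s := by
    intro x _
    obtain ⟨s, hs, hxs⟩ := hcon x
    exact mem_biUnion hs hxs
  refine (hS.biUnion fun s _ => ?_).mono this
  have : Iic s = insert s (Iio s) := by
    ext x; simp [le_iff_eq_or_lt]
  rw [this]
  exact (hc s).insert s

omit [LinearOrder W] in
theorem countable_lists {S : Set W} (hS : S.Countable) :
    {l : List W | ∀ x ∈ l, x ∈ S}.Countable := by
  have : Countable S := hS.to_subtype
  refine (countable_range (fun l : List S => l.map Subtype.val)).mono ?_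
  intro l hl
  refine ⟨l.attach.map (fun x => ⟨x.1, hl x.1 x.2⟩), ?_⟩
  simp

/-- Closing off: every function from finite lists to `W` has a closure point. -/
theorem exists_closed [WellFoundedLT W] (hc : ∀ a : W, (Iio a).Countable)
    (hu : ¬ (univ : Set W).Countable) (φ : List W → W) :
    ∃ α : W, (∃ β, β < α) ∧ (∀ β < α, ∃ γ < α, β < γ) ∧
      ∀ l : List W, (∀ x ∈ l, x < α) → φ l < α := by
  have hic : ∀ a : W, (Iic a).Countable := by
    intro a
    have : Iic a = insert a (Iio a) := by
      ext x; simp [le_iff_eq_or_lt]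
    rw [this]
    exact (hc a).insert a
  have hG : ∀ β : W, ∃ γ, β < γ ∧ ∀ l : List W, (∀ x ∈ l, x ≤ β) → φ l < γ := by
    intro β
    obtain ⟨γ, hγ⟩ := exists_bound hc hu (insert β (φ '' {l : List W | ∀ x ∈ l, x ∈ Iic β}))
      (((countable_lists (hic β)).image φ).insert β)
    refine ⟨γ, hγ β (mem_insert _ _), fun l hl => hγ _ (mem_insert_of_mem _ ⟨l, hl, rfl⟩)⟩
  choose G hG1 hG2 using hG
  have hne : Nonempty W := by
    by_contra h
    rw [not_nonempty_iff] at h
    exact hu (by simp [Set.eq_empty_of_isEmpty])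
  obtain ⟨w0⟩ := hne
  let b : ℕ → W := fun n => Nat.rec w0 (fun _ x => G x) n
  have hb : ∀ n, b n < b (n + 1) := fun n => hG1 (b n)
  have hmono : StrictMono b := strictMono_nat_of_lt_succ hb
  obtain ⟨u, hu'⟩ := exists_bound hc hu (range b) (countable_range b)
  let T : Set W := {a | ∀ n, b n < a}
  have hT : T.Nonempty := ⟨u, fun n => hu' _ (mem_range_self n)⟩
  let α := WellFounded.min (wellFounded_lt (α := W)) T hT
  have hα : ∀ n, b n < α := WellFounded.min_mem (wellFounded_lt (α := W)) T hT
  have hα2 : ∀ β < α, ∃ n, β ≤ b n := by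
    intro β hβ
    by_contra hcon
    push Not at hcon
    exact WellFounded.not_lt_min (wellFounded_lt (α := W)) T hcon hβ
  refine ⟨α, ⟨b 0, hα 0⟩, ?_, ?_⟩
  · intro β hβ
    obtain ⟨n, hn⟩ := hα2 β hβ
    exact ⟨b (n + 1), hα (n + 1), lt_of_le_of_lt hn (hb n)⟩
  · intro l hl
    have : ∃ n, ∀ x ∈ l, x ≤ b n := by
      clear hG2
      induction l with
      | nil => exact ⟨0, by simp⟩
      | cons a l ih =>
        obtain ⟨n, hn⟩ := ih (fun x hx => hl x (List.mem_cons_of_mem _ hx))
        obtain ⟨m, hm⟩ := hα2 a (hl a List.mem_cons_self)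
        refine ⟨max n m, ?_⟩
        intro x hx
        rcases List.mem_cons.1 hx with rfl | hx
        · exact hm.trans (hmono.monotone (le_max_right _ _))
        · exact (hn x hx).trans (hmono.monotone (le_max_left _ _))
    obtain ⟨n, hn⟩ := this
    exact (hG2 (b n) l hn).trans (hα (n + 1))

/-- Existence of ladders. -/
theorem exists_ladder (hc : ∀ a : W, (Iio a).Countable) (α : W) :
    ∃ x : Set W, x ⊆ Iio α ∧ (∀ β < α, ∃ γ ∈ x, β ≤ γ) ∧ ∀ β < α, (x ∩ Iio β).Finite := by
  rcases (Iio α).eq_empty_or_nonempty with he | hne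
  · refine ⟨∅, empty_subset _, ?_, ?_⟩
    · intro β hβ
      have : β ∈ Iio α := hβ
      rw [he] at this
      exact absurd this (notMem_empty _)
    · intro β _; simp
  · obtain ⟨e, he⟩ := (hc α).exists_eq_range hne
    refine ⟨{γ | ∃ n, e n = γ ∧ ∀ i ≤ n, e i ≤ e n}, ?_, ?_, ?_⟩
    · rintro γ ⟨n, rfl, _⟩
      rw [he]; exact mem_range_self n
    · intro β hβ
      have : β ∈ Iio α := hβ
      rw [he] at this
      obtain ⟨m, rfl⟩ := this
      obtain ⟨k, hk, hk2⟩ := Finset.exists_max_image (Finset.range (m + 1)) e ⟨0, by simp⟩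
      refine ⟨e k, ⟨k, rfl, ?_⟩, hk2 m (by simp)⟩
      intro i hi
      apply hk2
      simp only [Finset.mem_range] at hk ⊢
      omega
    · intro β hβ
      have : β ∈ Iio α := hβ
      rw [he] at this
      obtain ⟨m, rfl⟩ := this
      refine ((Set.finite_lt_nat m).image e).subset ?_
      rintro γ ⟨⟨n, rfl, hn⟩, hn2⟩
      refine ⟨n, ?_, rfl⟩
      by_contra hcon
      rw [mem_ofPred_eq, not_lt] at hcon
      exact absurd (hn m hcon) (not_le.2 hn2)

end W

/-! ### The space -/

/-- The underlying set of the space: finite subsets of `W`, and the ladders. -/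
def Sp (W : Type) (lad : W → Set W) : Type := {x : Set W // x.Finite ∨ ∃ α, x = lad α}

section Space

variable {W : Type} [LinearOrder W] {lad : W → Set W}

/-- `x` and `y` agree below `β`. -/
def Agree (β : W) (x y : Sp W lad) : Prop := ∀ γ < β, (γ ∈ x.1 ↔ γ ∈ y.1)

theorem Agree.symm {β : W} {x y : Sp W lad} (h : Agree β x y) : Agree β y x :=
  fun γ hγ => (h γ hγ).symm

theorem Agree.trans {β : W} {x y z : Sp W lad} (h : Agree β x y) (h' : Agree β y z) :
    Agree β x z := fun γ hγ => (h γ hγ).trans (h' γ hγ)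

theorem Agree.refl (β : W) (x : Sp W lad) : Agree β x x := fun _ _ => Iff.rfl

theorem Agree.mono {β β' : W} (hb : β ≤ β') {x y : Sp W lad} (h : Agree β' x y) :
    Agree β x y := fun γ hγ => h γ (lt_of_lt_of_le hγ hb)

/-- The topology: `O` is open iff with each point it contains all points that agree with it below
some `β`. -/
@[reducible] def topSp [Nonempty W] : TopologicalSpace (Sp W lad) where
  IsOpen O := ∀ x ∈ O, ∃ β, ∀ y, Agree β x y → y ∈ O
  isOpen_univ := fun _ _ => ⟨Classical.arbitrary W, fun _ _ => mem_univ _⟩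
  isOpen_inter := by
    rintro s t hs ht x ⟨hxs, hxt⟩
    obtain ⟨b, hb⟩ := hs x hxs
    obtain ⟨c, hc⟩ := ht x hxt
    exact ⟨max b c, fun y hy => ⟨hb y (hy.mono (le_max_left _ _)), hc y (hy.mono (le_max_right _ _))⟩⟩
  isOpen_sUnion := by
    rintro S hS x ⟨s, hs, hx⟩
    obtain ⟨b, hb⟩ := hS s hs x hx
    exact ⟨b, fun y hy => ⟨s, hs, hb y hy⟩⟩

/-- the basic open set of all points that agree with `x` below `β` -/
def cell (β : W) (x : Sp W lad) : Set (Sp W lad) := {y | Agree β x y}

/-- the partition of the space into cells -/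
def cov (β : W) : Set (Set (Sp W lad)) := range (cell β)


/-- cells are open, and so are their unions and complements -/
theorem isOpen_cells [Nonempty W] (β : W) (O : Set (Sp W lad))
    (hO : ∀ x ∈ O, ∀ y, Agree β x y → y ∈ O) : IsOpen[topSp] O :=
  fun x hx => ⟨β, fun y hy => hO x hx y hy⟩

theorem isOpen_cell [Nonempty W] (β : W) (x : Sp W lad) : IsOpen[topSp] (cell β x) :=
  isOpen_cells β _ (fun _ hy _ hz => Agree.trans hy hz)

theorem isOpen_cell_compl [Nonempty W] (β : W) (x : Sp W lad) : IsOpen[topSp] (cell β x)ᶜ :=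
  isOpen_cells β _ (fun _ hy _ hz hc => hy (Agree.trans hc hz.symm))

theorem isOpen_sUnion_cov_compl [Nonempty W] (β : W) (F : Set (Set (Sp W lad)))
    (hF : F ⊆ cov β) : IsOpen[topSp] (⋃₀ F)ᶜ := by
  refine isOpen_cells β _ ?_
  rintro y hy z hz ⟨c, hc, hzc⟩
  obtain ⟨x, rfl⟩ := hF hc
  exact hy ⟨_, hc, Agree.trans hzc hz.symm⟩

theorem isOpenCover_cov [Nonempty W] (β : W) :
    @IsOpenCover (Sp W lad) topSp (cov β) := by
  refine ⟨?_, ?_⟩
  · rintro _ ⟨x, rfl⟩
    exact isOpen_cell β x
  · apply eq_univ_of_forall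
    intro x
    exact ⟨_, ⟨x, rfl⟩, Agree.refl β x⟩

/-- distinct points are separated by some `β` -/
theorem exists_not_agree (hc : ∀ a : W, (Iio a).Countable) (hu : ¬ (univ : Set W).Countable)
    {x y : Sp W lad} (hxy : x ≠ y) : ∃ β, ¬ Agree β x y := by
  by_contra hcon
  push Not at hcon
  apply hxy
  apply Subtype.ext
  ext γ
  obtain ⟨β, hβ⟩ := exists_bound hc hu {γ} (countable_singleton γ)
  exact hcon β γ (hβ γ rfl)

/-- the assumptions on `W` and `lad` used below -/
structure Good (W : Type) [LinearOrder W] (lad : W → Set W) : Prop where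
  hc : ∀ a : W, (Iio a).Countable
  hu : ¬ (univ : Set W).Countable
  sub : ∀ α, lad α ⊆ Iio α
  cof : ∀ α, ∀ β < α, ∃ γ ∈ lad α, β ≤ γ
  fin : ∀ α, ∀ β < α, (lad α ∩ Iio β).Finite

/-- the finite set given by a list -/
def ofList (l : List W) : Sp W lad := ⟨{x | x ∈ l}, Or.inl (List.finite_toSet l)⟩

theorem isPspace [Nonempty W] (hg : Good W lad) (S : Set (Set (Sp W lad))) (hS : S.Countable)
    (hO : ∀ s ∈ S, IsOpen[topSp] s) : IsOpen[topSp] (⋂₀ S) := by
  intro x hx
  have : ∀ s : Set (Sp W lad), ∃ β, s ∈ S → ∀ y, Agree β x y → y ∈ s := by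
    intro s
    by_cases hs : s ∈ S
    · obtain ⟨β, hβ⟩ := hO s hs x (hx s hs)
      exact ⟨β, fun _ => hβ⟩
    · exact ⟨Classical.arbitrary W, fun h => absurd h hs⟩
  choose f hf using this
  obtain ⟨b, hb⟩ := exists_bound hg.hc hg.hu (f '' S) (hS.image f)
  refine ⟨b, fun y hy s hs => hf s hs y (hy.mono (hb _ ⟨s, hs, rfl⟩).le)⟩

theorem isLindelof [WellFoundedLT W] [Nonempty W] (hg : Good W lad) {ι : Type}
    (U : ι → Set (Sp W lad)) (hU : ∀ i, IsOpen[topSp] (U i)) (hcov : ∀ x, ∃ i, x ∈ U i) :
    ∃ t : Set ι, t.Countable ∧ ∀ x, ∃ i ∈ t, x ∈ U i := by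
  choose i hi using hcov
  have h1 : ∀ x, ∃ β, ∀ y, Agree β x y → y ∈ U (i x) := fun x => hU (i x) x (hi x)
  choose b hb using h1
  obtain ⟨α, hα0, hαl, hα⟩ := exists_closed hg.hc hg.hu (fun l => b (ofList l))
  refine ⟨(fun l => i (ofList l)) '' {l : List W | ∀ x ∈ l, x ∈ Iio α} ∪
    (fun γ => i ⟨lad γ, Or.inr ⟨γ, rfl⟩⟩) '' (insert α (Iio α)), ?_, ?_⟩
  · exact ((countable_lists (hg.hc α)).image _).union (((hg.hc α).insert α).image _)
  · intro x
    by_cases hx : (x.1 ∩ Iio α).Finite
    · have hl : ∀ y ∈ hx.toFinset.toList, y < α := by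
        intro y hy
        simp at hy
        exact hy.2
      refine ⟨i (ofList hx.toFinset.toList), Or.inl ⟨_, hl, rfl⟩, ?_⟩
      apply hb
      intro γ hγ
      have hγ' : γ < α := hγ.trans (hα _ hl)
      simp [ofList, hγ']
    · rcases x.2 with hf | ⟨γ, hγ⟩
      · exact absurd (hf.subset inter_subset_left) hx
      · have hγα : γ ≤ α := by
          by_contra hcon
          push Not at hcon
          apply hx
          rw [hγ]
          exact hg.fin γ α hcon
        have hxe : x = ⟨lad γ, Or.inr ⟨γ, rfl⟩⟩ := Subtype.ext hγ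
        refine ⟨i x, Or.inr ⟨γ, ?_, ?_⟩, hi x⟩
        · rcases hγα.eq_or_lt with rfl | h
          · exact mem_insert _ _
          · exact mem_insert_of_mem _ h
        · rw [hxe]

theorem no_winning [WellFoundedLT W] [Nonempty W] (hg : Good W lad) :
    ¬ @BobWinsMenger (Sp W lad) topSp := by
  rintro ⟨σ, hσ⟩
  -- Bob's response to `cov β` after the moves `cov` of `l`
  let G : List W → W → Set (Set (Sp W lad)) := fun l β => resp σ (l.map cov) (cov β)
  have hplay : ∀ s : ℕ → W, Follows σ (fun n => cov (s n))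
      (fun n => G ((List.range n).map s) (s n)) := by
    intro s
    have := follows_resp σ (fun n => (cov (s n) : Set (Set (Sp W lad))))
    simpa [G, List.map_map, Function.comp_def] using this
  have hleg : ∀ l β, (G l β).Finite ∧ G l β ⊆ cov β := by
    intro l β
    let s : ℕ → W := fun n => (l ++ [β]).getD n β
    have h1 := (hσ _ _ (hplay s)).1 l.length (fun k _ => isOpenCover_cov _)
    have h2 : (List.range l.length).map s = l := by
      apply List.ext_getElem
      · simp
      · intro n hn1 hn2
        simp only [List.getElem_map, List.getElem_range, s]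
        rw [List.getD_eq_getElem?_getD, List.getElem?_append_left hn2]
        simp [hn2]
    have h3 : s l.length = β := by
      simp [s, List.getD_eq_getElem?_getD]
    rw [h2, h3] at h1
    exact h1
  -- the set of points that Bob always covers
  let K : List W → Set (Sp W lad) := fun l => {x | ∀ β, x ∈ ⋃₀ G l β}
  have hK : ∀ l, (K l).Finite := by
    intro l
    by_contra hinf
    have hinf : (K l).Infinite := hinf
    let f := hinf.natEmbedding
    have h1 : ∀ p : ℕ × ℕ, ∃ β, p.1 ≠ p.2 → ¬ Agree β (f p.1).1 (f p.2).1 := by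
      intro p
      by_cases hp : p.1 = p.2
      · exact ⟨Classical.arbitrary W, fun h => absurd hp h⟩
      · have : (f p.1).1 ≠ (f p.2).1 := by
          intro h
          exact hp (f.injective (Subtype.ext h))
        obtain ⟨β, hβ⟩ := exists_not_agree hg.hc hg.hu this
        exact ⟨β, fun _ => hβ⟩
    choose b hb using h1
    obtain ⟨β, hβ⟩ := exists_bound hg.hc hg.hu (range b) (countable_range b)
    have h2 : ∀ n : ℕ, ∃ c ∈ G l β, (f n).1 ∈ c := fun n => (f n).2 β
    choose c hc1 hc2 using h2
    have hinj : Function.Injective c := by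
      intro m n hmn
      by_contra hne
      apply hb (m, n) hne
      have h3 := hc2 m
      have h4 := hc2 n
      rw [← hmn] at h4
      obtain ⟨z, hz⟩ := (hleg l β).2 (hc1 m)
      rw [← hz] at h3 h4
      have h5 : Agree β (f m).1 (f n).1 := Agree.trans (Agree.symm h3) h4
      exact h5.mono (hβ _ (mem_range_self _)).le
    exact (infinite_range_of_injective hinj)
      ((hleg l β).1.subset (by rintro _ ⟨n, rfl⟩; exact hc1 n))
  -- bound for the points of `K l`
  have hbd : ∀ x : Sp W lad, ∃ e, ∀ γ ∈ x.1, γ < e := by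
    intro x
    apply exists_bound hg.hc hg.hu
    rcases x.2 with h | ⟨α, h⟩
    · exact h.countable
    · rw [h]; exact (hg.hc α).mono (hg.sub α)
  have hE : ∀ l, ∃ e, ∀ x ∈ K l, ∀ γ ∈ x.1, γ < e := by
    intro l
    choose e he using hbd
    obtain ⟨b, hb⟩ := exists_bound hg.hc hg.hu (e '' K l) ((hK l).countable.image e)
    exact ⟨b, fun x hx γ hγ => (he x γ hγ).trans (hb _ ⟨x, hx, rfl⟩)⟩
  choose E hE using hE
  -- Lindelöf
  have hH : ∀ l, ∀ b, ∃ h, ∀ x : Sp W lad, (∀ k ∈ K l, ¬ Agree b k x) →
      ∃ β < h, x ∉ ⋃₀ G l β := by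
    intro l b
    let U : Option W → Set (Sp W lad) := fun o => match o with
      | none => {x | ∃ k ∈ K l, Agree b k x}
      | some β => (⋃₀ G l β)ᶜ
    obtain ⟨t, ht, htc⟩ := isLindelof hg U (by
      intro o
      match o with
      | none =>
        refine isOpen_cells b _ ?_
        rintro x ⟨k, hk, hkx⟩ y hy
        exact ⟨k, hk, hkx.trans hy⟩
      | some β => exact isOpen_sUnion_cov_compl β _ (hleg l β).2) (by
      intro x
      by_cases hx : x ∈ K l
      · exact ⟨none, x, hx, Agree.refl _ _⟩
      · simp only [K, mem_ofPred_eq, not_forall] at hx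
        obtain ⟨β, hβ⟩ := hx
        exact ⟨some β, hβ⟩)
    obtain ⟨h, hh⟩ := exists_bound hg.hc hg.hu {β | some β ∈ t}
      (ht.preimage (Option.some_injective W))
    refine ⟨h, fun x hx => ?_⟩
    obtain ⟨o, ho, hxo⟩ := htc x
    match o with
    | none =>
      obtain ⟨k, hk, hkx⟩ := hxo
      exact absurd hkx (hx k hk)
    | some β => exact ⟨β, hh β ho, hxo⟩
  choose H hH using hH
  -- the closure point
  obtain ⟨w0⟩ := (inferInstance : Nonempty W)
  obtain ⟨α, ⟨β0, hβ0⟩, hlim, hα⟩ := exists_closed hg.hc hg.hu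
    (fun l => match l with
      | [] => w0
      | b :: l => max (E l) (H l b))
  have hα1 : ∀ l : List W, (∀ x ∈ l, x < α) → ∀ b < α, E l < α ∧ H l b < α := by
    intro l hl b hb
    have := hα (b :: l) (by
      intro x hx
      rcases List.mem_cons.1 hx with rfl | hx
      · exact hb
      · exact hl x hx)
    exact max_lt_iff.1 this
  let p : Sp W lad := ⟨lad α, Or.inr ⟨α, rfl⟩⟩
  have step : ∀ l : List W, ∃ β, (∀ x ∈ l, x < α) → β < α ∧ p ∉ ⋃₀ G l β := by
    intro l
    by_cases hl : ∀ x ∈ l, x < α
    · obtain ⟨γ, hγ, hEγ⟩ := hg.cof α (E l) (hα1 l hl β0 hβ0).1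
      obtain ⟨b, hb, hγb⟩ := hlim γ (hg.sub α hγ)
      obtain ⟨β, hβ, hpβ⟩ := hH l b p (by
        intro k hk hag
        have h1 : γ ∈ k.1 := (hag γ hγb).2 hγ
        exact absurd (hE l k hk γ h1) (not_lt.2 hEγ))
      exact ⟨β, fun _ => ⟨hβ.trans (hα1 l hl b hb).2, hpβ⟩⟩
    · exact ⟨w0, fun h => absurd h hl⟩
  choose nx hnx using step
  let L : ℕ → List W := fun n => Nat.rec [] (fun _ l => l ++ [nx l]) n
  have hL : ∀ n, ∀ x ∈ L n, x < α := by
    intro n
    induction n with
    | zero => intro x hx; simp [L] at hx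
    | succ n ih =>
      intro x hx
      have : L (n + 1) = L n ++ [nx (L n)] := rfl
      rw [this, List.mem_append, List.mem_singleton] at hx
      rcases hx with hx | rfl
      · exact ih x hx
      · exact (hnx (L n) ih).1
  have hL2 : ∀ n, L n = (List.range n).map (fun k => nx (L k)) := by
    intro n
    induction n with
    | zero => simp [L]
    | succ n ih =>
      have : L (n + 1) = L n ++ [nx (L n)] := rfl
      rw [this, List.range_succ, List.map_append, ← ih]
      rfl
  have h1 := (hσ _ _ (hplay (fun k => nx (L k)))).2 (fun n => isOpenCover_cov _)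
  have h2 : p ∈ ⋃ n, ⋃₀ G ((List.range n).map (fun k => nx (L k))) (nx (L n)) := by
    rw [h1]; exact mem_univ _
  obtain ⟨n, hn⟩ := mem_iUnion.1 h2
  rw [← hL2 n] at hn
  exact (hnx (L n) (hL n)).2 hn

end Space

/-- Lindelöf `P`-spaces are Menger. -/
theorem isMenger_of {X : Type} [TopologicalSpace X] [LindelofSpace X]
    (hP : ∀ S : Set (Set X), S.Countable → (∀ s ∈ S, IsOpen s) → IsOpen (⋂₀ S)) :
    IsMenger X := by
  intro U hU
  have h1 : ∀ (x : X) (n : ℕ), ∃ u ∈ U n, x ∈ u := by
    intro x n
    have : x ∈ ⋃₀ U n := by rw [(hU n).2]; exact mem_univ x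
    exact this
  choose u hu hxu using h1
  have h2 : ∀ x, IsOpen (⋂₀ range (u x)) := by
    intro x
    apply hP _ (countable_range _)
    rintro _ ⟨n, rfl⟩
    exact (hU n).1 _ (hu x n)
  obtain ⟨t, ht, htc⟩ := (isLindelof_univ (X := X)).elim_countable_subcover
    (fun x => ⋂₀ range (u x)) h2 (by
      intro x _
      refine mem_iUnion.2 ⟨x, ?_⟩
      rintro _ ⟨n, rfl⟩
      exact hxu x n)
  rcases t.eq_empty_or_nonempty with he | hne
  · refine ⟨fun _ => ∅, fun n => ⟨finite_empty, empty_subset _⟩, ?_⟩
    apply eq_univ_of_forall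
    intro x
    have := htc (mem_univ x)
    simp [he] at this
  · obtain ⟨e, he⟩ := ht.exists_eq_range hne
    refine ⟨fun n => {u (e n) n}, fun n => ⟨finite_singleton _, ?_⟩, ?_⟩
    · rintro _ rfl
      exact hu _ _
    · apply eq_univ_of_forall
      intro x
      obtain ⟨y, hy, hxy⟩ := mem_iUnion₂.1 (htc (mem_univ x))
      rw [he] at hy
      obtain ⟨n, rfl⟩ := hy
      refine mem_iUnion.2 ⟨n, ?_⟩
      exact ⟨_, rfl, hxy _ (mem_range_self n)⟩

/-- In a Lindelöf `T₁` `P`-space Bob wins the game `PONAG` in his first move. -/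
theorem bobWinsPONAG_of {X : Type} [TopologicalSpace X] [LindelofSpace X] [T1Space X]
    (hP : ∀ S : Set (Set X), S.Countable → (∀ s ∈ S, IsOpen s) → IsOpen (⋂₀ S)) :
    BobWinsPONAG X := by
  classical
  have hclosed : ∀ D : Set X, D.Countable → IsClosed D := by
    intro D hD
    have : Dᶜ = ⋂₀ ((fun d => {d}ᶜ) '' D) := by
      ext x
      simp only [mem_compl_iff, sInter_image, mem_iInter, mem_singleton_iff]
      constructor
      · rintro h d hd rfl; exact h hd
      · intro h hx; exact h x hx rfl
    rw [← isOpen_compl_iff, this]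
    apply hP _ (hD.image _)
    rintro _ ⟨d, _, rfl⟩
    exact isOpen_compl_singleton
  have hdisc : ∀ D : Set X, D.Countable → DiscreteTopology D := by
    intro D hD
    rw [discreteTopology_subtype_iff']
    intro d hd
    refine ⟨(D \ {d})ᶜ, ?_, ?_⟩
    · rw [isOpen_compl_iff]
      exact hclosed _ (hD.mono sdiff_subset)
    · ext x
      simp only [mem_inter_iff, mem_compl_iff, mem_sdiff, mem_singleton_iff, not_and, not_not]
      constructor
      · rintro ⟨h1, h2⟩; exact h1 h2
      · rintro rfl; exact ⟨fun _ => rfl, hd⟩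
  let good : PONA X → Set X → Prop := fun N D => D ⊆ N.Y ∧ D.Countable ∧ N.star D = univ
  let σ : List (PONA X) → List (Set X) → Set X := fun lN _ =>
    match lN with
    | [N] => if h : ∃ D, good N D then h.choose else ∅
    | _ => ∅
  refine ⟨σ, fun N D hf => ?_⟩
  have h0 : AliceLegal N D 0 → good (N 0) (D 0) := by
    intro hA
    have hcov : ∀ x : X, ∃ y : (N 0).Y, x ∈ (N 0).V y := by
      intro x
      have : x ∈ uncovered N D 0 := by simp [uncovered]
      exact mem_iUnion.1 (hA.2 this)
    obtain ⟨t, ht, htc⟩ := (isLindelof_univ (X := X)).elim_countable_subcover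
      (fun y : (N 0).Y => (N 0).V y) (N 0).isOpen_V (fun x _ => mem_iUnion.2 (hcov x))
    have hex : ∃ D, good (N 0) D := by
      refine ⟨Subtype.val '' t, ?_, ht.image _, ?_⟩
      · rintro _ ⟨y, _, rfl⟩; exact y.2
      · apply eq_univ_of_forall
        intro x
        obtain ⟨y, hy, hxy⟩ := mem_iUnion₂.1 (htc (mem_univ x))
        exact mem_iUnion₂.2 ⟨y, ⟨y, hy, rfl⟩, hxy⟩
    have : D 0 = hex.choose := by
      rw [hf 0]
      simp [σ, hex]
    rw [this]
    exact hex.choose_spec
  have hn : ∀ n, D (n + 1) = ∅ := by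
    intro n
    rw [hf (n + 1)]
    have : (List.range (n + 1 + 1)).map N = N 0 :: N 1 :: (List.range n).map (fun k => N (k + 2)) := by
      simp [List.range_succ_eq_map, List.map_map, Function.comp_def]
    rw [this]
  refine ⟨fun n hA => ?_, fun hA => ?_⟩
  · cases n with
    | zero =>
      have := h0 (hA 0 le_rfl)
      exact ⟨this.1, hclosed _ this.2.1, hdisc _ this.2.1⟩
    | succ n =>
      rw [hn n]
      exact ⟨empty_subset _, isClosed_empty, hdisc _ countable_empty⟩
  · have := (h0 (hA 0)).2.2
    apply eq_univ_of_forall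
    intro x
    refine mem_iUnion.2 ⟨0, ?_⟩
    rw [this]; exact mem_univ x

/-- **Negative answer to Q1.** There is a regular Hausdorff Lindelöf `P`-space `X` (so `X` is
Menger) such that Bob has a winning strategy in `PONAG(X)` but no winning strategy in the Menger
game on `X`. -/
theorem result : ∃ (X : Type) (_ : TopologicalSpace X), T3Space X ∧ LindelofSpace X ∧
    (∀ S : Set (Set X), S.Countable → (∀ s ∈ S, IsOpen s) → IsOpen (⋂₀ S)) ∧
    IsMenger X ∧ BobWinsPONAG X ∧ ¬ BobWinsMenger X := by
  let W : Type := (Cardinal.aleph 1).ord.ToType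
  have hc : ∀ a : W, (Iio a).Countable := by
    intro a
    have h1 : Cardinal.mk (Iio a) < Cardinal.aleph 1 := by
      have := Cardinal.mk_Iio_lt a (by simp [W])
      simpa [W] using this
    rw [← Cardinal.le_aleph0_iff_set_countable]
    have h2 : Cardinal.mk (Iio a) < Order.succ Cardinal.aleph0 := by
      rw [Cardinal.succ_aleph0]; exact h1
    exact Order.lt_succ_iff.1 h2
  have hu : ¬ (univ : Set W).Countable := by
    intro h
    rw [← Cardinal.le_aleph0_iff_set_countable, Cardinal.mk_univ] at h
    have h2 : Cardinal.mk W = Cardinal.aleph 1 := by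
      simp [W]
    rw [h2, ← Cardinal.succ_aleph0] at h
    exact absurd (Order.lt_succ Cardinal.aleph0) (not_lt.2 h)
  have hne : Nonempty W := by
    by_contra h
    rw [not_nonempty_iff] at h
    exact hu (by simp [Set.eq_empty_of_isEmpty])
  choose lad h1 h2 h3 using fun α : W => exists_ladder hc α
  have hg : Good W lad := ⟨hc, hu, h1, h2, h3⟩
  let _ : TopologicalSpace (Sp W lad) := topSp
  have hL : LindelofSpace (Sp W lad) := by
    constructor
    apply isLindelof_of_countable_subcover
    intro ι U hU hcov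
    obtain ⟨t, ht, htc⟩ := isLindelof hg U hU (fun x => mem_iUnion.1 (hcov (mem_univ x)))
    exact ⟨t, ht, fun x _ => mem_iUnion₂.2 (by simpa using htc x)⟩
  have hcl : ∀ β x, IsClosed (cell β x : Set (Sp W lad)) :=
    fun β x => ⟨isOpen_cell_compl β x⟩
  have hT2 : T2Space (Sp W lad) := by
    constructor
    intro x y hxy
    obtain ⟨β, hβ⟩ := exists_not_agree hc hu hxy
    exact ⟨cell β x, (cell β x)ᶜ, isOpen_cell β x, isOpen_cell_compl β x, Agree.refl β x, hβ,
      disjoint_compl_right⟩
  have hreg : RegularSpace (Sp W lad) := by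
    apply RegularSpace.of_exists_mem_nhds_isClosed_subset
    intro x s hs
    obtain ⟨O, hOs, hO, hxO⟩ := mem_nhds_iff.1 hs
    obtain ⟨β, hβ⟩ := hO x hxO
    exact ⟨cell β x, (isOpen_cell β x).mem_nhds (Agree.refl β x), hcl β x,
      fun y hy => hOs (hβ y hy)⟩
  have hP := fun S hS hO => isPspace hg S hS hO
  exact ⟨Sp W lad, topSp, {}, hL, hP, isMenger_of hP, bobWinsPONAG_of hP, no_winning hg⟩

end Pool.Agent.Results.MP_4977a6_gt.LindelofPCounterexample
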